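import Pool.Agent.Helper79.GT.St2

/-!
# Project GT (MP_c2d095_lc), module KEY: a repeated board has the same difference
-/

set_option autoImplicit false

namespace Pool.Agent.Helper80.GT

open Pool.Agent.Helper79.GT Pool.Agent.Helper79.GS Pool.Agent.Helper19.SK

private theorem rch_trans {P : Type} {A : Arena P} {b x : P} {k : ℕ} (h : Rch A b k x) {y : P} {l : ℕ}
    (h' : Rch A x l y) : Rch A b (k + l) y := by
  induction h' with
  | refl => simpa using h
  | rev l c y z _ h1 h2 ih => exact Rch.rev _ c y z ih h1 h2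
  | irr l c y z _ h1 h2 ih => exact Rch.irr _ c y z ih h1 h2

private theorem rch_iter {P : Type} {A : Arena P} {b x : P} {k₀ k : ℕ} (h : Rch A b k₀ x) (h' : Rch A x k x) :
    ∀ j : ℕ, Rch A b (k₀ + j * k) x := by
  intro j
  induction j with
  | zero => simpa using h
  | succ j ih =>
      have h2 := rch_trans ih h'
      have e : k₀ + j * k + k = k₀ + (j + 1) * k := by ring
      rwa [e] at h2

theorem hKEY (hWPR : StWPR) (hWDF : StWDF) : Pool.Agent.Helper79.GT.StKEY := by
  intro P A D pt g N M B R d₀ hK a₀ hBd a a' k₀ k h1 h2 heq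
  have r1 : Rch (uA A D pt) a₀.1 k₀ a.1 := (hWPR P A D pt g N M B d₀ hK a₀ k₀).1 a h1
  have r2 : Rch (uA A D pt) a.1 k a'.1 := (hWPR P A D pt g N M B d₀ hK a k).1 a' h2
  rw [heq] at r2
  have hk : k = 0 := by
    by_contra hne
    have hpos : 1 ≤ k := Nat.one_le_iff_ne_zero.mpr hne
    have h3 := hBd _ _ (rch_iter r1 r2 (R + 1))
    nlinarith
  subst hk
  have h4 := hWDF P A D pt g N M B d₀ hK a a' 0 h2
  rw [heq] at h4
  have h5 : |4 * ((a'.2.val : ℤ) - a.2.val)| ≤ 0 := by
    simpa using h4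
  have h6 : 4 * ((a'.2.val : ℤ) - a.2.val) = 0 := abs_eq_zero.mp (le_antisymm h5 (abs_nonneg _))
  have h7 : a'.2.val = a.2.val := by omega
  exact Prod.ext heq (Fin.ext h7)

end Pool.Agent.Helper80.GT
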